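import Pool.Agent.K6.H70.MT.AllQ

set_option autoImplicit false

/-!
# Montgomery's `ℓ^q` inequality for almost all polynomial twists of arbitrary coefficients

Let `d ≥ 1`, let `|b_{j,n}| ≤ 1` be any array, and for `2^j ≤ N < 2^{j+1}` and `N ≤ u`, `v ≤ 2N` put

`D(t) = ∑_{u ≤ n ≤ v} b_{j,n} e(α_1 n + … + α_d n^d) n^{it}`.

For almost every `α ∈ ℝ^d` the `2(d+1)`-st moment of `D` over the integers `1 ≤ t ≤ T` is, up to powers of
logarithms and for all `N, T ≥ 1`, at most `N^{d+1} (N + T)`, even when the interval `[u, v]` may be chosen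
for each `t` separately (maximal function). Hence the inequality of Q1 holds for almost every twist, for all
`q ≤ 2(d+1)` and all `A`, and for all `q` when `A ≤ d + 1`.

The proof averages over the twist and over `t` at once: the number of solutions of
`∑ n_i^h = ∑ m_i^h` (`1 ≤ h ≤ d`), `|∑ log n_i - ∑ log m_i| ≤ 1/T` in `d + 1` pairs of variables is counted by
Newton's identities, which give `∏ (z - n_i) - ∏ (z - m_i) = ± (∏ n_i - ∏ m_i)` for every `z`. The passage to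
all `N` and to the maximal function is by dyadic blocks.
-/

namespace Pool.Agent.Results.MP_2a1f0e_nt.AlmostAllPolynomialTwists

open Finset MeasureTheory

/-- `D(t) = ∑_{u ≤ n ≤ v} b_n e(α_1 n + α_2 n² + … + α_d n^d) n^{it}` (with `α_{j+1} = α j`) -/
noncomputable def D (d : ℕ) (b : ℕ → ℂ) (α : Fin d → ℝ) (u v : ℕ) (t : ℝ) : ℂ :=
  ∑ n ∈ Icc u v, b n *
    Complex.exp (2 * Real.pi * Complex.I * ((∑ j : Fin d, α j * (n : ℝ) ^ (j.val + 1) : ℝ) : ℂ)) *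
    Complex.exp (Complex.I * (t : ℂ) * ((Real.log (n : ℝ) : ℝ) : ℂ))

theorem D_eq (d : ℕ) (b : ℕ → ℂ) (α : Fin d → ℝ) (u v : ℕ) (t : ℝ) :
    D d b α u v t = Pool.Agent.K6.H70.MT.D d b α u v t := by
  unfold D Pool.Agent.K6.H70.MT.D Pool.Agent.K6.H70.MT.ev Pool.Agent.K6.H70.MT.vv
  apply sum_congr rfl
  intro n _
  push_cast
  rfl

/-- **Main theorem.** -/
theorem result (d : ℕ) (b : ℕ → ℕ → ℂ) (hb : ∀ j n, ‖b j n‖ ≤ 1) :
    ∀ᵐ α : Fin d → ℝ,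
      (∃ C : ℝ, ∀ N T : ℕ, 1 ≤ N → 1 ≤ T →
        ∀ u v : ℕ → ℕ, (∀ t, N ≤ u t ∧ v t ≤ 2 * N) →
          ∑ t ∈ Icc 1 T, ‖D d (b (Nat.log 2 N)) α (u t) (v t) t‖ ^ (2 * (d + 1)) ≤
            C * ((1 + Real.log N) ^ (3 * d + 5) * (1 + Real.log T) ^ 2 *
              (N : ℝ) ^ (d + 1) * (N + T))) ∧
      ∀ q A ε : ℝ, 0 < q → 1 ≤ A → 0 < ε → (q ≤ 2 * (d + 1) ∨ A ≤ d + 1) →
        ∃ K : ℝ, ∀ N T : ℕ, 1 ≤ N → N ≤ T → (T : ℝ) ≤ (N : ℝ) ^ A →
          ∀ u v : ℕ → ℕ, (∀ t, N ≤ u t ∧ v t ≤ 2 * N) →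
            ∑ t ∈ Icc 1 T, ‖D d (b (Nat.log 2 N)) α (u t) (v t) t‖ ^ q ≤
              K * (N : ℝ) ^ ε * ((N : ℝ) ^ q + (N : ℝ) ^ (q / 2) * T) := by
  filter_upwards [Pool.Agent.K6.H70.MT.ae_bd d b hb] with α hα
  obtain ⟨C, hC⟩ := hα
  refine ⟨⟨C, ?_⟩, ?_⟩
  · intro N T hN hT u v huv
    simp only [D_eq]
    exact hC N T hN hT u v huv
  · intro q A ε hq hA hε hqA
    obtain ⟨K, hK⟩ := Pool.Agent.K6.H70.MT.all_q d b hb α hC hq hA hε hqA
    refine ⟨K, ?_⟩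
    intro N T hN hNT hT u v huv
    simp only [D_eq]
    exact hK N T hN hNT hT u v huv

end Pool.Agent.Results.MP_2a1f0e_nt.AlmostAllPolynomialTwists
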