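import Pool.Agent.K6.H1.MQ.Dual
import Pool.Agent.K6.H1.MQ.Pow
import Pool.Agent.K6.H1.MQ.Fin2
import Pool.Agent.K6.H1.MQ.Poly

set_option autoImplicit false

/-!
# Montgomery's `ℓ^q` inequality on sets of integers with few repeated differences

Let `W ⊆ [1, T]` be a set of integers such that every nonzero integer is in at most `R` ways a
difference of two elements of `W`. Then for all coefficients `|b_n| ≤ 1`, all `q > 0`, all `ε > 0` and
`N ≤ T ≤ N^A`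

`∑_{t ∈ W} |D(t)|^q ≤ K N^ε (N^q + (R T)^(1/2) N^(3q/4))`,

and for `R = 1` the right side is at most `2 K N^ε (N^q + T N^(q/2))`. So the inequality of Q1 holds for
the sum over any Sidon set, and also for the sum over the values of any integer polynomial of degree
`≥ 2` (the squares, the cubes, …).

The proof is the duality of Halász and Montgomery for the powers `D^k`; the sum of the kernels
`∑ n^{i(t-t')} e^{-n/L}` over the pairs of elements of `W` is bounded by the fourth moment of the Riemann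
zeta function on the critical line (a theorem of the starting library), which is seen by the differences
`t - t'` with multiplicity at most `R`.
-/

namespace Pool.Agent.Results.MP_2a1f0e_nt.FewDifferences

open Finset

/-- `D(t) = ∑_{N ≤ n ≤ 2N} b_n n^{it}` -/
noncomputable def D (N : ℕ) (b : ℕ → ℂ) (t : ℝ) : ℂ :=
  ∑ n ∈ Icc N (2 * N), b n * Complex.exp (Complex.I * (t : ℂ) * ((Real.log (n : ℝ) : ℝ) : ℂ))

theorem D_eq (N : ℕ) (b : ℕ → ℂ) (t : ℝ) : D N b t = Pool.Agent.K6.H1.MQ.DD N b t := rfl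

/-- Every nonzero integer is in at most `R` ways a difference of two elements of `W`. -/
def FewDiff (W : Finset ℕ) (R : ℕ) : Prop :=
  ∀ h : ℤ, h ≠ 0 → ((W ×ˢ W).filter (fun p => (p.1 : ℤ) - p.2 = h)).card ≤ R

theorem rhs_le {N T : ℕ} (q : ℝ) (hN : 1 ≤ N) :
    (N : ℝ) ^ q + √(T : ℝ) * (N : ℝ) ^ (3 * q / 4) ≤ 2 * ((N : ℝ) ^ q + (N : ℝ) ^ (q / 2) * T) := by
  have hN' : (0 : ℝ) < N := by exact_mod_cast hN
  set x := (N : ℝ) ^ (q / 2) with hx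
  set y := √(T : ℝ) with hy
  set z := (N : ℝ) ^ (q / 4) with hz
  have hx0 : 0 ≤ x := by positivity
  have hz0 : 0 ≤ z := by positivity
  have hy0 : 0 ≤ y := Real.sqrt_nonneg _
  have e1 : (N : ℝ) ^ q = x * z ^ 2 := by
    rw [hx, hz, ← Real.rpow_natCast, ← Real.rpow_mul hN'.le, ← Real.rpow_add hN']
    congr 1
    push_cast
    ring
  have e2 : (N : ℝ) ^ (3 * q / 4) = x * z := by
    rw [hx, hz, ← Real.rpow_add hN']
    congr 1
    ring
  have e3 : (T : ℝ) = y ^ 2 := by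
    rw [hy, Real.sq_sqrt (Nat.cast_nonneg _)]
  rw [e1, e2, e3]
  nlinarith [mul_nonneg hx0 (sq_nonneg (y - z)), mul_nonneg hx0 (sq_nonneg y),
    mul_nonneg hx0 (sq_nonneg z)]

/-- the moments over a set with few repeated differences -/
theorem moments (q A ε : ℝ) (hq : 0 < q) (hA : 1 ≤ A) (hε : 0 < ε) : ∃ K : ℝ, 0 ≤ K ∧
    ∀ N T R : ℕ, 1 ≤ N → N ≤ T →
      (T : ℝ) ≤ (N : ℝ) ^ A → 1 ≤ R → ∀ W : Finset ℕ, W ⊆ Icc 1 T → FewDiff W R →
        ∀ b : ℕ → ℂ, (∀ n, ‖b n‖ ≤ 1) →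
          ∑ t ∈ W, ‖D N b t‖ ^ q ≤
            K * (N : ℝ) ^ ε * ((N : ℝ) ^ q + √((R : ℝ) * T) * (N : ℝ) ^ (3 * q / 4)) := by
  obtain ⟨K, hK0, hK⟩ := Pool.Agent.K6.H1.MQ.fin_two Pool.Agent.K6.H1.MQ.pow_all
    Pool.Agent.K6.H1.MQ.lv_all q A ε hq hA hε
  refine ⟨K, hK0, fun N T R hN hNT hT hR W hW hF b hb => ?_⟩
  rcases le_or_gt R T with hRT | hRT
  · exact hK N T R W b hN hNT hT hR hRT hW hF (fun n _ => hb n)
  · have hT1 : 1 ≤ T := hN.trans hNT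
    have hcard : W.card ≤ T := by
      have := card_le_card hW
      rwa [Nat.card_Icc, Nat.add_sub_cancel] at this
    have hF' : Pool.Agent.K6.H1.MQ.FewDiff W T := fun h hh =>
      (Pool.Agent.K6.H1.MQ.fewDiff_card W h hh).trans hcard
    have h1 := hK N T T W b hN hNT hT hT1 le_rfl hW hF' (fun n _ => hb n)
    refine h1.trans ?_
    have h2 : √((T : ℝ) * T) ≤ √((R : ℝ) * T) := by
      apply Real.sqrt_le_sqrt
      have : (T : ℝ) ≤ R := by exact_mod_cast hRT.le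
      gcongr
    gcongr

/-- **Main theorem.** -/
theorem result :
    (∀ q A ε : ℝ, 0 < q → 1 ≤ A → 0 < ε → ∃ K : ℝ, ∀ N T R : ℕ, 1 ≤ N → N ≤ T →
      (T : ℝ) ≤ (N : ℝ) ^ A → 1 ≤ R → ∀ W : Finset ℕ, W ⊆ Icc 1 T → FewDiff W R →
        ∀ b : ℕ → ℂ, (∀ n, ‖b n‖ ≤ 1) →
          ∑ t ∈ W, ‖D N b t‖ ^ q ≤
            K * (N : ℝ) ^ ε * ((N : ℝ) ^ q + √((R : ℝ) * T) * (N : ℝ) ^ (3 * q / 4))) ∧
    (∀ P : Polynomial ℤ, 2 ≤ P.natDegree → ∀ q A ε : ℝ, 0 < q → 1 ≤ A → 0 < ε →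
      ∃ K : ℝ, ∀ N T : ℕ, 1 ≤ N → N ≤ T → (T : ℝ) ≤ (N : ℝ) ^ A →
        ∀ W : Finset ℕ, W ⊆ Icc 1 T → (∀ t ∈ W, ∃ j : ℤ, P.eval j = t) →
          ∀ b : ℕ → ℂ, (∀ n, ‖b n‖ ≤ 1) →
            ∑ t ∈ W, ‖D N b t‖ ^ q ≤
              K * (N : ℝ) ^ ε * ((N : ℝ) ^ q + √(T : ℝ) * (N : ℝ) ^ (3 * q / 4))) ∧
    (∀ q : ℝ, ∀ N T : ℕ, 1 ≤ N → (N : ℝ) ^ q + √(T : ℝ) * (N : ℝ) ^ (3 * q / 4) ≤
      2 * ((N : ℝ) ^ q + (N : ℝ) ^ (q / 2) * T)) := by
  refine ⟨?_, ?_, fun q N T hN => rhs_le q hN⟩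
  · intro q A ε hq hA hε
    obtain ⟨K, _, hK⟩ := moments q A ε hq hA hε
    exact ⟨K, hK⟩
  · intro P hP q A ε hq hA hε
    obtain ⟨K, hK0, hK⟩ := moments q A (ε / 2) hq hA (by positivity)
    obtain ⟨C, hC, hpol⟩ := Pool.Agent.K6.H1.MQ.poly_all P hP (ε / A) (by positivity)
    refine ⟨K * √(C + 1), fun N T hN hNT hT W hW hP1 b hb => ?_⟩
    have hT1 : 1 ≤ T := hN.trans hNT
    have hN1 : (1 : ℝ) ≤ N := by exact_mod_cast hN
    have hN0 : (0 : ℝ) < N := by linarith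
    have hT0 : (1 : ℝ) ≤ T := by exact_mod_cast hT1
    set R := ⌊C * (T : ℝ) ^ (ε / A)⌋₊ + 1 with hR
    have hTe : (1 : ℝ) ≤ (T : ℝ) ^ (ε / A) := Real.one_le_rpow hT0 (by positivity)
    have hF : FewDiff W R := by
      intro h hh
      have h1 := hpol T W hT1 hW hP1 h hh
      have h2 : ((W ×ˢ W).filter (fun p => (p.1 : ℤ) - p.2 = h)).card ≤ ⌊C * (T : ℝ) ^ (ε / A)⌋₊ :=
        Nat.le_floor h1
      omega
    have hTN : (T : ℝ) ^ (ε / A) ≤ (N : ℝ) ^ ε := by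
      calc (T : ℝ) ^ (ε / A) ≤ ((N : ℝ) ^ A) ^ (ε / A) :=
            Real.rpow_le_rpow (by linarith) hT (by positivity)
        _ = (N : ℝ) ^ ε := by
            rw [← Real.rpow_mul hN0.le]
            congr 1
            field_simp
    have hRle : (R : ℝ) ≤ (C + 1) * (N : ℝ) ^ ε := by
      rw [hR]
      push_cast
      have h1 := Nat.floor_le (a := C * (T : ℝ) ^ (ε / A)) (by positivity)
      nlinarith
    have hsq : √((R : ℝ) * T) ≤ √(C + 1) * (N : ℝ) ^ (ε / 2) * √(T : ℝ) := by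
      calc √((R : ℝ) * T) ≤ √(((C + 1) * (N : ℝ) ^ ε) * T) :=
            Real.sqrt_le_sqrt (mul_le_mul_of_nonneg_right hRle (by linarith))
        _ = √(C + 1) * √((N : ℝ) ^ ε) * √(T : ℝ) := by
            rw [Real.sqrt_mul (by positivity), Real.sqrt_mul (by linarith)]
        _ = √(C + 1) * (N : ℝ) ^ (ε / 2) * √(T : ℝ) := by
            congr 2
            rw [Real.sqrt_eq_rpow, ← Real.rpow_mul hN0.le]
            congr 1
            ring
    have h3 := hK N T R hN hNT hT (by omega) W hW hF b hb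
    have hC1 : 1 ≤ √(C + 1) := Real.one_le_sqrt.2 (by linarith)
    have hNh : 1 ≤ (N : ℝ) ^ (ε / 2) := Real.one_le_rpow hN1 (by positivity)
    have hCN : 1 ≤ √(C + 1) * (N : ℝ) ^ (ε / 2) := by nlinarith
    have hNe : (N : ℝ) ^ ε = (N : ℝ) ^ (ε / 2) * (N : ℝ) ^ (ε / 2) := by
      rw [← Real.rpow_add hN0]
      congr 1
      ring
    have hNq : 0 ≤ (N : ℝ) ^ q := by positivity
    calc ∑ t ∈ W, ‖D N b t‖ ^ q
        ≤ K * (N : ℝ) ^ (ε / 2) * ((N : ℝ) ^ q + √((R : ℝ) * T) * (N : ℝ) ^ (3 * q / 4)) := h3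
      _ ≤ K * (N : ℝ) ^ (ε / 2) * ((√(C + 1) * (N : ℝ) ^ (ε / 2)) * (N : ℝ) ^ q +
          (√(C + 1) * (N : ℝ) ^ (ε / 2) * √(T : ℝ)) * (N : ℝ) ^ (3 * q / 4)) := by
          have : (N : ℝ) ^ q ≤ (√(C + 1) * (N : ℝ) ^ (ε / 2)) * (N : ℝ) ^ q :=
            le_mul_of_one_le_left hNq hCN
          gcongr
      _ = K * √(C + 1) * (N : ℝ) ^ ε *
          ((N : ℝ) ^ q + √(T : ℝ) * (N : ℝ) ^ (3 * q / 4)) := by
          rw [hNe]; ring

end Pool.Agent.Results.MP_2a1f0e_nt.FewDifferences
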