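import Pool.Agent.K6.H70.SI.Fin

set_option autoImplicit false

/-!
# Montgomery's `ℓ^q` inequality for coefficients supported on short intervals and on progressions

Let `ρ ≤ 1` and `2 κ ≤ ρ + √(3 - 2 ρ)`. For all coefficients `|b_n| ≤ 1` supported on an arithmetic progression
with at most `2 N^κ` terms and modulus at least `N^ρ`, the inequality of Q1

`∑_{1 ≤ t ≤ T} |∑_{N ≤ n ≤ 2N} b_n n^{it}|^q ≤ C N^ε (N^q + T N^{q/2})`

holds for all `q ≥ 2` and all `T ≥ N` (no upper bound on `T` is needed). Cases: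

* `ρ = 0`, `κ = √3/2 = 0.866…`: all coefficients supported on an interval (or any progression) of at most
  `2 N^{0.866}` integers;
* `ρ = 1/9`, `κ = 8/9`: all coefficients supported on any progression of modulus `r ≥ N^{1/9}` (its part in
  `[N, 2N]` has at most `2 N^{8/9}` terms).

(From the even moments `∑ |D|^{2m} ≤ N^ε (T + N^m) K^m` alone, `K` being the number of frequencies, one gets the
inequality only for `K ≤ N^{0.828}`.) The new input is the fourth moment over a progression with `K` terms and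
modulus `r`, `∑_{t ≤ T} |D|^4 ≤ C N^ε (T K² + N² K / r² + N K³ / r)`, from the determinants
`n₁ n₂ - n₃ n₄ = r (s n₃ + r u w)`, `u, w, s` the differences of the places in the progression.
-/

namespace Pool.Agent.Results.MP_2a1f0e_nt.ShortIntervalsProgressions

open Finset Pool.Agent.K6.H70.SI

/-- **Main theorem.** -/
theorem result (κ ρ : ℝ) (hρ1 : ρ ≤ 1) (hκ : 2 * κ ≤ ρ + Real.sqrt (3 - 2 * ρ)) (q ε : ℝ)
    (hq : 2 ≤ q) (hε : 0 < ε) :
    ∃ C : ℝ, ∀ N T : ℕ, 1 ≤ N → N ≤ T →
      ∀ a r K : ℕ, (N : ℝ) ^ ρ ≤ r → (K : ℝ) ≤ 2 * (N : ℝ) ^ κ →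
        ∀ b : ℕ → ℂ, (∀ n, ‖b n‖ ≤ 1) →
          (∀ n ∈ Icc N (2 * N), b n ≠ 0 → ∃ k < K, n = a + r * k) →
            ∑ t ∈ Icc 1 T,
                ‖∑ n ∈ Icc N (2 * N),
                    b n * Complex.exp (Complex.I * (t : ℂ) * ((Real.log (n : ℝ) : ℝ) : ℂ))‖ ^ q ≤
              C * (N : ℝ) ^ ε * ((N : ℝ) ^ q + (N : ℝ) ^ (q / 2) * (T : ℝ)) := by
  classical
  obtain ⟨C, hC0, hC⟩ := main_S hρ1 hκ hq hε
  refine ⟨C, fun N T hN hNT a r K hr hK b hb hsupp => ?_⟩
  have hN1 : (1 : ℝ) ≤ N := by exact_mod_cast hN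
  have hN0 : (0 : ℝ) < N := by linarith
  set S : Finset ℕ := (Icc N (2 * N)).filter (fun n => b n ≠ 0) with hS
  have hG : ∀ t : ℕ, ∑ n ∈ Icc N (2 * N),
      b n * Complex.exp (Complex.I * (t : ℂ) * ((Real.log (n : ℝ) : ℝ) : ℂ)) = G S b t := by
    intro t
    unfold G
    rw [hS, sum_filter]
    apply sum_congr rfl
    intro n _
    split_ifs with h
    · congr 2
      push_cast
      ring
    · push Not at h
      rw [h, zero_mul]
  simp only [hG]
  have hSmem : ∀ n ∈ S, N ≤ n ∧ n ≤ 2 * N := fun n hn => mem_Icc.1 (mem_filter.1 hn).1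
  rcases S.eq_empty_or_nonempty with h0 | h0
  · have h1 : ∀ t : ℕ, ‖G S b t‖ ^ q = 0 := by
      intro t
      unfold G
      rw [h0, sum_empty, norm_zero, Real.zero_rpow (by linarith)]
    simp only [h1, sum_const_zero]
    positivity
  -- the smallest member of the support
  set n0 := S.min' h0 with hn0
  have hn0S : n0 ∈ S := S.min'_mem h0
  have hr0 : 0 < r := by
    have h1 : (0 : ℝ) < (N : ℝ) ^ ρ := by positivity
    have : (0 : ℝ) < r := lt_of_lt_of_le h1 hr
    exact_mod_cast this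
  have hrep : ∀ n ∈ S, ∃ k < K, n = a + r * k := fun n hn =>
    hsupp n (mem_filter.1 hn).1 (mem_filter.1 hn).2
  obtain ⟨k0, hk0, hn0k⟩ := hrep n0 hn0S
  have hn0N := hSmem n0 hn0S
  rcases le_or_gt r N with hrN | hrN
  · -- modulus at most `N`
    have hdiv := Nat.div_mul_le_self N r
    have key : ∀ n ∈ S, ∃ k : ℤ, 0 ≤ k ∧ k < (min K (N / r + 1) : ℕ) ∧ (n : ℤ) = n0 + (r : ℤ) * k := by
      intro n hn
      obtain ⟨k, hk, hnk⟩ := hrep n hn
      have h1 : n0 ≤ n := S.min'_le n hn
      have h2 : k0 ≤ k := by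
        rw [hnk, hn0k] at h1
        have : r * k0 ≤ r * k := by omega
        exact Nat.le_of_mul_le_mul_left this hr0
      refine ⟨(k : ℤ) - k0, by omega, ?_, ?_⟩
      · rw [Nat.cast_min, lt_min_iff]
        refine ⟨by omega, ?_⟩
        have h3 : r * (k - k0) ≤ N := by
          have h4 := (hSmem n hn).2
          have h5 : r * (k - k0) = n - n0 := by
            rw [hnk, hn0k, Nat.mul_sub]
            omega
          omega
        have h6 : k - k0 ≤ N / r := by
          rw [Nat.le_div_iff_mul_le hr0, mul_comm]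
          exact h3
        push_cast
        have h7 : ((k - k0 : ℕ) : ℤ) ≤ ((N / r : ℕ) : ℤ) := by exact_mod_cast h6
        rw [Nat.cast_sub h2] at h7
        push_cast at h7
        omega
      · have h3 : (n : ℤ) = a + r * k := by exact_mod_cast hnk
        have h4 : (n0 : ℤ) = a + r * k0 := by exact_mod_cast hn0k
        rw [h3, h4]
        ring
    have hK1 : 1 ≤ min K (N / r + 1) := by
      rw [le_min_iff]
      exact ⟨by omega, Nat.le_add_left 1 _⟩
    have hKle : ((min K (N / r + 1) : ℕ) : ℝ) ≤ K := by exact_mod_cast min_le_left K (N / r + 1)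
    refine hC N (min K (N / r + 1)) T n0 r S (by exact_mod_cast hr0) (by exact_mod_cast hrN) hK1 ?_
      hSmem key hNT (by exact_mod_cast hr) (hKle.trans hK) b hb
    have h1 : r * min K (N / r + 1) ≤ 2 * N := by
      calc r * min K (N / r + 1) ≤ r * (N / r + 1) := Nat.mul_le_mul_left _ (min_le_right _ _)
        _ = N / r * r + r := by ring
        _ ≤ N + N := by omega
        _ = 2 * N := by ring
    exact_mod_cast h1
  · -- one frequency
    have key : ∀ n ∈ S, ∃ k : ℤ, 0 ≤ k ∧ k < (1 : ℕ) ∧ (n : ℤ) = n0 + (N : ℤ) * k := by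
      intro n hn
      obtain ⟨k, hk, hnk⟩ := hrep n hn
      have h1 : n0 ≤ n := S.min'_le n hn
      have h2 : k0 ≤ k := by
        rw [hnk, hn0k] at h1
        have : r * k0 ≤ r * k := by omega
        exact Nat.le_of_mul_le_mul_left this hr0
      have h3 : k = k0 := by
        by_contra hne
        have h4 : k0 + 1 ≤ k := by omega
        have h5 : r * (k0 + 1) ≤ r * k := Nat.mul_le_mul_left _ h4
        have h6 := (hSmem n hn).2
        rw [Nat.mul_add] at h5
        omega
      refine ⟨0, le_rfl, by norm_num, ?_⟩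
      rw [hnk, hn0k, h3]
      push_cast
      ring
    have hK1 : ((1 : ℕ) : ℝ) ≤ 2 * (N : ℝ) ^ κ := by
      refine le_trans ?_ hK
      have : 1 ≤ K := by omega
      exact_mod_cast this
    refine hC N 1 T n0 N S (by exact_mod_cast hN) le_rfl le_rfl (by push_cast; omega) hSmem key hNT ?_
      hK1 b hb
    push_cast
    calc (N : ℝ) ^ ρ ≤ (N : ℝ) ^ (1 : ℝ) := Real.rpow_le_rpow_of_exponent_le hN1 hρ1
      _ = N := Real.rpow_one _

end Pool.Agent.Results.MP_2a1f0e_nt.ShortIntervalsProgressions
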