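import Pool.Agent.K6.H60.MC.Alm
import Pool.Agent.K6.H60.MC.Ex

set_option autoImplicit false

/-!
# Montgomery's `ℓ^q` inequality for almost all multiplicative twists of arbitrary coefficients

Let `|b_n| ≤ 1` be arbitrary coefficients.  For a completely multiplicative function `f` with `|f(n)| ≤ 1`
put `D(t) = ∑_{N ≤ n ≤ 2N} b_n f(n) n^{it}`.

1. The inequality of Q1 holds on average over the family of all twists `f(n) = χ(n) n^{iτ}`, where `χ` runs
   through the Dirichlet characters modulo `Q` and `τ` through the integers `0 ≤ τ < H`, as soon as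
   `Q H ≥ N T` and `H ≥ T`; for all exponents `q > 0` and all `T ≤ N^A`.  For instance `H = T` and any
   modulus `Q ≥ N`; or `Q = 1` and `H = N T`.
2. For every modulus `Q ≥ N` the inequality of Q1 holds for all `T ≤ N^A` at once, for all but
   `φ(Q) N^{-ε/2}` characters `χ` modulo `Q`.
3. For almost every completely multiplicative function `f` with values in the unit circle (that is for almost
   all values at the primes) and every array `b_{N,n}`, one has `|D(t)| ≤ K N^{1/2 + ε}` for all `N` and all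
   integers `0 ≤ t ≤ N^A`, even for the sums over all the subintervals of `[N, 2N]`; hence the inequality of
   Q1 holds for all `q` and all `A` in the stronger form without the term `N^q`.

The proof of 1 and 2: the mean over the characters splits the powers of `D` into polynomials supported on
residue classes modulo `Q`, the frequencies of which are better spaced by the factor `Q`.
-/

namespace Pool.Agent.Results.MP_2a1f0e_nt.TwistsByCharacters

open Finset MeasureTheory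

/-- `D(t) = ∑_{u ≤ n ≤ v} b_n f(n) n^{it}` -/
noncomputable def D (f b : ℕ → ℂ) (u v : ℕ) (t : ℝ) : ℂ :=
  ∑ n ∈ Icc u v, b n * f n * Complex.exp (Complex.I * (t : ℂ) * ((Real.log (n : ℝ) : ℝ) : ℂ))

/-- The completely multiplicative function with the values `exp(2 π i θ_p)` at the primes `p`. -/
noncomputable def multiplicative (θ : ℕ → UnitAddCircle) (n : ℕ) : ℂ :=
  n.factorization.prod fun p k => ((θ p).toCircle : ℂ) ^ k

theorem D_char {Q : ℕ} (χ : DirichletCharacter ℂ Q) (N : ℕ) (b : ℕ → ℂ) (t : ℝ) :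
    D (fun n => χ (n : ZMod Q)) b N (2 * N) t = Pool.Agent.K6.H60.MC.D χ N b t := rfl

theorem D_mult (θ : ℕ → UnitAddCircle) (b : ℕ → ℂ) (u v t : ℕ) :
    D (multiplicative θ) b u v t = Pool.Agent.K6.H60.MC.SS Pool.Agent.K6.H60.MC.XX b u v t θ := rfl

/-- **Main theorem.** -/
theorem result :
    -- 1. on average over the twists `χ(n) n^{iτ}`
    (∀ q A ε : ℝ, 0 < q → 0 < ε → ∃ K : ℝ, ∀ (N T H Q : ℕ) [NeZero Q] (b : ℕ → ℂ),
      1 ≤ N → 1 ≤ T → (T : ℝ) ≤ (N : ℝ) ^ A → T ≤ H → N * T ≤ Q * H →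
      (∀ n ∈ Icc N (2 * N), ‖b n‖ ≤ 1) →
      (∑ χ : DirichletCharacter ℂ Q, ∑ τ ∈ range H, ∑ t ∈ Icc 1 T,
        ‖D (fun n => χ (n : ZMod Q)) b N (2 * N) (τ + t)‖ ^ q) / (Q.totient * H) ≤
        K * (N : ℝ) ^ ε * ((N : ℝ) ^ q + (N : ℝ) ^ (q / 2) * T)) ∧
    -- 2. for almost all characters modulo `Q ≥ N`
    (∀ q A ε : ℝ, 0 < q → 0 < ε → ∃ K : ℝ, ∀ (N Q : ℕ) [NeZero Q] (b : ℕ → ℂ), 1 ≤ N → N ≤ Q →
      (∀ n ∈ Icc N (2 * N), ‖b n‖ ≤ 1) →
      (Nat.card {χ : DirichletCharacter ℂ Q // ¬ ∀ T : ℕ, 1 ≤ T → (T : ℝ) ≤ (N : ℝ) ^ A →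
        ∑ t ∈ Icc 1 T, ‖D (fun n => χ (n : ZMod Q)) b N (2 * N) t‖ ^ q ≤
          K * (N : ℝ) ^ ε * ((N : ℝ) ^ q + (N : ℝ) ^ (q / 2) * T)} : ℝ) ≤
        (N : ℝ) ^ (-(ε / 2)) * Q.totient) ∧
    -- 3. for almost every completely multiplicative twist
    (∀ b : ℕ → ℕ → ℂ, (∀ N n, ‖b N n‖ ≤ 1) →
      ∀ᵐ θ ∂(Measure.infinitePi fun _ : ℕ => (volume : Measure UnitAddCircle)),
        (∀ A ε : ℝ, 0 < ε → ∃ K : ℝ, ∀ N : ℕ, 1 ≤ N → ∀ t : ℕ, (t : ℝ) ≤ (N : ℝ) ^ A →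
          ∀ u v : ℕ, N ≤ u → v ≤ 2 * N →
            ‖D (multiplicative θ) (b N) u v t‖ ≤ K * (N : ℝ) ^ (1 / 2 + ε)) ∧
        (∀ q A ε : ℝ, 0 < q → 0 < ε → ∃ K : ℝ, ∀ N T : ℕ, 1 ≤ N → (T : ℝ) ≤ (N : ℝ) ^ A →
          ∀ u v : ℕ → ℕ, (∀ t, N ≤ u t ∧ v t ≤ 2 * N) →
            ∑ t ∈ Icc 1 T, ‖D (multiplicative θ) (b N) (u t) (v t) t‖ ^ q ≤
              K * (N : ℝ) ^ ε * ((N : ℝ) ^ (q / 2) * T))) := by
  refine ⟨?_, ?_, ?_⟩
  · intro q A ε hq hε
    obtain ⟨K, -, hK⟩ := Pool.Agent.K6.H60.MC.average q A ε hq hε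
    refine ⟨K, ?_⟩
    intro N T H Q _ b hN hT hTA hTH hNT hb
    have h := hK N T H Q b hN hT hTA hTH hNT hb
    have h1 : (0 : ℝ) < Q.totient * H := by
      have h2 : 0 < Q.totient := Nat.totient_pos.2 (NeZero.pos Q)
      have h3 : 0 < H := by omega
      positivity
    rw [div_le_iff₀ h1]
    exact h
  · intro q A ε hq hε
    obtain ⟨K, -, hK⟩ := Pool.Agent.K6.H60.MC.almost q A ε hq hε
    refine ⟨K, ?_⟩
    intro N Q _ b hN hNQ hb
    have h := hK N Q b hN hNQ hb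
    simp only [not_forall, not_le, exists_prop]
    exact h
  · intro b hb
    filter_upwards [Pool.Agent.K6.H60.MC.as_all Pool.Agent.K6.H60.MC.meas_XX
      Pool.Agent.K6.H60.MC.indep_XX Pool.Agent.K6.H60.MC.norm_XX Pool.Agent.K6.H60.MC.mom_XX b hb,
      Pool.Agent.K6.H60.MC.as_q Pool.Agent.K6.H60.MC.meas_XX
      Pool.Agent.K6.H60.MC.indep_XX Pool.Agent.K6.H60.MC.norm_XX Pool.Agent.K6.H60.MC.mom_XX b hb]
      with θ h1 h2
    refine ⟨?_, ?_⟩
    · intro A ε hε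
      obtain ⟨K, -, hK⟩ := h1 A ε hε
      exact ⟨K, hK⟩
    · exact h2

end Pool.Agent.Results.MP_2a1f0e_nt.TwistsByCharacters
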